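import Pool.Agent.Q181.BD.Stm3

set_option autoImplicit false

/-!
# Project BD, job BD-NET: the net of a matrix over the group ring
-/

namespace Pool.Agent.Q249.BD

open Pool.Agent.Q181.BD TH57.Thr

theorem t_net : S_net := by
  intro G _ ι κ _ _ _ _ A c hc0 hc hA
  have hm : NormLE A (max c 1) := by
    intro x
    refine (hA x).trans (mul_le_mul_of_nonneg_right ?_ ?_)
    · exact pow_le_pow_left₀ hc0 (le_max_left c 1) 2
    · exact Finset.sum_nonneg fun i _ => Finset.sum_nonneg fun g _ => sq_nonneg _
  refine ⟨wz_symm A, ⟨fun u => u.isLeft, ?_⟩, ?_, ?_⟩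
  · intro u v h
    rcases u with p | q <;> rcases v with p' | q'
    · exact absurd rfl h
    · simp
    · simp
    · exact absurd rfl h
  · intro S f
    have h := quad_bound A (max c 1) (by positivity) hm S f
    simp only [wz_cast]
    exact h
  · apply max_lt hc
    rw [lt_div_iff₀ (by positivity), one_mul]
    have : Real.sqrt 2 < Real.sqrt 9 := Real.sqrt_lt_sqrt (by norm_num) (by norm_num)
    rw [show (9 : ℝ) = 3 ^ 2 by norm_num, Real.sqrt_sq (by norm_num)] at this
    exact this

end Pool.Agent.Q249.BD
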