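import Pool.Agent.Q181.BD.Stm1

set_option autoImplicit false

/-!
# Project BD, job BD-DEG: the sum of the squares of the weights at a vertex is at most `4`
-/

namespace Pool.Agent.Q249.BD

open Pool.Agent.Q181.BD

theorem three_div_sqrt_two_sq : (3 / Real.sqrt 2) ^ 2 = 9 / 2 := by
  rw [div_pow, Real.sq_sqrt (by norm_num)]
  norm_num

theorem t_deg : S_deg := by
  classical
  intro V W c hN u S
  obtain ⟨s, hs⟩ := hN.side
  obtain ⟨S', hS'⟩ : ∃ S' : Finset V, S' = S.filter (fun v => W u v ≠ 0) := ⟨_, rfl⟩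
  have hmem : ∀ v ∈ S', W u v ≠ 0 := by
    intro v hv
    rw [hS'] at hv
    exact (Finset.mem_filter.mp hv).2
  have huS : u ∉ S' := fun h => hmem u h (hN.loop u)
  have hzero : ∀ a ∈ S', ∀ b ∈ S', W a b = 0 := by
    intro a ha b hb
    by_contra h
    have h1 := hs u a (hmem a ha)
    have h2 := hs u b (hmem b hb)
    have h3 := hs a b h
    revert h1 h2 h3
    cases s u <;> cases s a <;> cases s b <;> simp
  have hsum : ∑ v ∈ S, W u v ^ 2 = ∑ v ∈ S', W u v ^ 2 := by
    rw [hS', Finset.sum_filter]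
    apply Finset.sum_congr rfl
    intro v _
    split_ifs with h
    · rfl
    · rw [not_not.mp h]
      norm_num
  obtain ⟨D, hD⟩ : ∃ D : ℝ, D = ∑ v ∈ S', (W u v : ℝ) ^ 2 := ⟨_, rfl⟩
  have hD0 : 0 ≤ D := by
    rw [hD]
    exact Finset.sum_nonneg fun v _ => sq_nonneg _
  obtain ⟨f, hf⟩ : ∃ f : V → ℝ, f = fun v => if v = u then Real.sqrt D else (W u v : ℝ) := ⟨_, rfl⟩
  have hfu : f u = Real.sqrt D := by
    rw [hf]
    exact if_pos rfl
  have hfv : ∀ v ∈ S', f v = W u v := by
    intro v hv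
    have hne : v ≠ u := by
      rintro rfl
      exact huS hv
    rw [hf]
    exact if_neg hne
  have hform := hN.form (insert u S') f
  have hL : ∑ a ∈ insert u S', ∑ b ∈ insert u S', (W a b : ℝ) * f a * f b =
      2 * (D * Real.sqrt D) := by
    rw [Finset.sum_insert huS, Finset.sum_insert huS]
    have e1 : ∑ b ∈ S', (W u b : ℝ) * f u * f b = D * Real.sqrt D := by
      rw [hD, Finset.sum_mul, ← hD]
      apply Finset.sum_congr rfl
      intro b hb
      rw [hfu, hfv b hb]
      ring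
    have e2 : ∑ a ∈ S', ∑ b ∈ insert u S', (W a b : ℝ) * f a * f b = D * Real.sqrt D := by
      rw [← e1]
      apply Finset.sum_congr rfl
      intro a ha
      rw [Finset.sum_insert huS, hN.symm a u]
      have e3 : ∑ b ∈ S', (W a b : ℝ) * f a * f b = 0 := by
        apply Finset.sum_eq_zero
        intro b hb
        rw [hzero a ha b hb]
        norm_num
      rw [e3, add_zero]
      ring
    rw [e1, e2, hN.loop u]
    push_cast
    ring
  have hR : ∑ a ∈ insert u S', f a ^ 2 = 2 * D := by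
    rw [Finset.sum_insert huS, hfu, Real.sq_sqrt hD0]
    have e1 : ∑ a ∈ S', f a ^ 2 = D := by
      rw [hD]
      apply Finset.sum_congr rfl
      intro a ha
      rw [hfv a ha]
    rw [e1]
    ring
  rw [hL, hR] at hform
  have hDlt : D < 9 / 2 := by
    rcases hD0.eq_or_lt with h | h
    · rw [← h]
      norm_num
    · have h1 : Real.sqrt D ≤ c := by
        have h2 : D * Real.sqrt D ≤ D * c := by linarith
        exact le_of_mul_le_mul_left h2 h
      have h3 : Real.sqrt D < 3 / Real.sqrt 2 := lt_of_le_of_lt h1 hN.lt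
      have h4 : Real.sqrt D ^ 2 < (3 / Real.sqrt 2) ^ 2 :=
        pow_lt_pow_left₀ h3 (Real.sqrt_nonneg D) (by norm_num)
      rwa [Real.sq_sqrt hD0, three_div_sqrt_two_sq] at h4
  rw [hsum]
  have hDZ : ((∑ v ∈ S', W u v ^ 2 : ℤ) : ℝ) < 5 := by
    push_cast
    rw [← hD]
    linarith
  have : ∑ v ∈ S', W u v ^ 2 < 5 := by exact_mod_cast hDZ
  omega

end Pool.Agent.Q249.BD
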