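import Pool.Agent.Q181.BD.Stm1

set_option autoImplicit false

/-!
# Project BD, job BD-OUT: two vertices off a line with a common neighbour on the line
-/

namespace Pool.Agent.Q249.BD

open Pool.Agent.Q181.BD

variable {V : Type} {W : V → V → ℤ} {c : ℝ} {p : ℤ → V}

theorem out_left (hstar : S_star) (htwo : S_two) (hN : Net W c) (hp : Line W p) (i : ℤ) {u w : V}
    (huw : u ≠ w) (hu : Off p u) (hw : Off p w) (hiu : W (p i) u ≠ 0) (hiw : W (p i) w ≠ 0) :
    W (p (i - 2)) u ≠ 0 ∨ W (p (i - 2)) w ≠ 0 := by
  by_contra hcon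
  push Not at hcon
  refine hstar V W c hN p hp i u w huw hu hw hiu hiw ?_ ?_
  · intro k hk
    by_contra h
    rcases htwo V W c hN p hp u k i hu h hiu hk.le with h' | h'
    · omega
    · rw [show k = i - 2 by omega] at h
      exact h hcon.1
  · intro k hk
    by_contra h
    rcases htwo V W c hN p hp w k i hw h hiw hk.le with h' | h'
    · omega
    · rw [show k = i - 2 by omega] at h
      exact h hcon.2

theorem t_out (hstar : S_star) (htwo : S_two) : S_out := by
  intro V W c hN p hp i u w huw hu hw hiu hiw
  refine ⟨out_left hstar htwo hN hp i huw hu hw hiu hiw, ?_⟩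
  have h := out_left hstar htwo hN hp.rev (-i) huw hu.rev hw.rev (by simpa using hiu)
    (by simpa using hiw)
  have e : -(-i - 2) = i + 2 := by ring
  simp only [e] at h
  exact h

end Pool.Agent.Q249.BD
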