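import Pool.Agent.Q181.BD.Stm1

set_option autoImplicit false

/-!
# Project BD, job BD-SUB: surgery on lines
-/

namespace Pool.Agent.Q249.BD

open Pool.Agent.Q181.BD

theorem t_sub : S_sub := by
  intro V W hsymm p hp a b n x hab hn hA hadj
  constructor
  · intro i j hij
    rcases sur_cases p a b n x i with ⟨hi, ei⟩ | ⟨k, hk1, hk2, hi, ei⟩ | ⟨l, hl, hi, ei⟩ <;>
    rcases sur_cases p a b n x j with ⟨hj, ej⟩ | ⟨k', hk1', hk2', hj, ej⟩ | ⟨l', hl', hj, ej⟩ <;>
    rw [ei, ej] at hij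
    · exact hp.inj hij
    · exact absurd hij (hA.off k' hk1' hk2' i)
    · have := hp.inj hij
      omega
    · exact absurd hij.symm (hA.off k hk1 hk2 j)
    · have := hA.inj k k' hk1 hk2 hk1' hk2' hij
      omega
    · exact absurd hij.symm (hA.off k hk1 hk2 l')
    · have := hp.inj hij
      omega
    · exact absurd hij (hA.off k' hk1' hk2' l)
    · have := hp.inj hij
      omega
  · intro i j
    rcases sur_cases p a b n x i with ⟨hi, ei⟩ | ⟨k, hk1, hk2, hi, ei⟩ | ⟨l, hl, hi, ei⟩ <;>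
    rcases sur_cases p a b n x j with ⟨hj, ej⟩ | ⟨k', hk1', hk2', hj, ej⟩ | ⟨l', hl', hj, ej⟩ <;>
    rw [ei, ej]
    · exact hp.adj i j
    · rw [hadj k' i hk1' hk2' (Or.inl hi)]
      omega
    · rw [hp.adj]
      omega
    · rw [hsymm, hadj k j hk1 hk2 (Or.inl hj)]
      omega
    · rw [hA.adj k k' hk1 hk2 hk1' hk2']
      omega
    · rw [hsymm, hadj k l' hk1 hk2 (Or.inr hl')]
      omega
    · rw [hp.adj]
      omega
    · rw [hadj k' l hk1' hk2' (Or.inr hl)]
      omega
    · rw [hp.adj]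
      omega

end Pool.Agent.Q249.BD
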