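import Pool.Agent.Q181.BD.Stm1

set_option autoImplicit false

/-!
# Project BD, job BD-TWO: a vertex off a line has at most two neighbours on the line
-/

namespace Pool.Agent.Q249.BD

open Pool.Agent.Q181.BD

variable {V : Type} {W : V → V → ℤ} {c : ℝ} {p : ℤ → V}

/-- a vertex has finitely many neighbours on a line -/
theorem fin_nbr (hdeg : S_deg) (hN : Net W c) (hp : Line W p) (u : V) :
    {k : ℤ | W (p k) u ≠ 0}.Finite := by
  classical
  by_contra hinf
  obtain ⟨T, hT, hcard⟩ := Set.Infinite.exists_subset_card_eq hinf 5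
  have h1 := hdeg V W c hN u (T.image p)
  rw [Finset.sum_image (fun x _ y _ h => hp.inj h)] at h1
  have h2 : ∑ x ∈ T, (1 : ℤ) ≤ ∑ x ∈ T, W u (p x) ^ 2 := by
    apply Finset.sum_le_sum
    intro x hx
    have h3 : W (p x) u ≠ 0 := hT hx
    rw [hN.symm] at h3
    have h4 : 0 < W u (p x) ^ 2 := by positivity
    omega
  rw [Finset.sum_const, hcard] at h2
  norm_num at h2
  omega

/-- the line `p` with the part between `p a` and `p b` replaced by a vertex `u` -/
theorem sur_one (hsub : S_sub) (hN : Net W c) (hp : Line W p) {u : V} (hu : Off p u) {a b : ℤ}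
    (hab : a + 2 ≤ b) (ha : W (p a) u ≠ 0) (hb : W (p b) u ≠ 0) (hlt : ∀ k, k < a → W (p k) u = 0)
    (hgt : ∀ k, b < k → W (p k) u = 0) : Line W (sur p a b 1 (fun _ => u)) := by
  apply hsub V W hN.symm p hp a b 1 (fun _ => u) hab le_rfl
  · refine ⟨fun _ _ _ => hu, fun k l h1 h2 h3 h4 _ => by omega, fun k l h1 h2 h3 h4 => ?_⟩
    rw [hN.loop u]
    simp only [ne_eq, not_true_eq_false, false_iff]
    omega
  · intro k i h1 h2 hi
    have hk : k = 1 := by omega
    constructor
    · intro h
      rcases hi with hi | hi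
      · rcases hi.lt_or_eq with h' | h'
        · exact absurd (hlt i h') h
        · exact Or.inl ⟨h', hk⟩
      · rcases hi.lt_or_eq with h' | h'
        · exact absurd (hgt i h') h
        · exact Or.inr ⟨h'.symm, hk⟩
    · rintro (⟨rfl, -⟩ | ⟨rfl, -⟩)
      · exact ha
      · exact hb

theorem t_two (hdeg : S_deg) (hsub : S_sub) (hsa : S_sa) : S_two := by
  classical
  intro V W c hN p hp u i j hu hi hj hij
  have hfin := fin_nbr hdeg hN hp u
  have hmem : ∀ k, k ∈ hfin.toFinset ↔ W (p k) u ≠ 0 := by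
    intro k
    rw [Set.Finite.mem_toFinset]
    rfl
  have hne : hfin.toFinset.Nonempty := ⟨i, (hmem i).2 hi⟩
  obtain ⟨a, ha, hamin⟩ : ∃ a, W (p a) u ≠ 0 ∧ ∀ k, W (p k) u ≠ 0 → a ≤ k :=
    ⟨hfin.toFinset.min' hne, (hmem _).1 (Finset.min'_mem _ _),
      fun k hk => Finset.min'_le _ _ ((hmem k).2 hk)⟩
  obtain ⟨b, hb, hbmax⟩ : ∃ b, W (p b) u ≠ 0 ∧ ∀ k, W (p k) u ≠ 0 → k ≤ b :=
    ⟨hfin.toFinset.max' hne, (hmem _).1 (Finset.max'_mem _ _),
      fun k hk => Finset.le_max' _ _ ((hmem k).2 hk)⟩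
  have hlt : ∀ k, k < a → W (p k) u = 0 := by
    intro k hk
    by_contra h
    have := hamin k h
    omega
  have hgt : ∀ k, b < k → W (p k) u = 0 := by
    intro k hk
    by_contra h
    have := hbmax k h
    omega
  have e1 : Even (j - i) := hN.even hp hj hi
  have e2 : Even (b - a) := hN.even hp hb ha
  have h1 := hamin i hi
  have h2 := hbmax j hj
  by_cases h4 : b - a ≤ 2
  · obtain ⟨r, hr⟩ := e1
    omega
  exfalso
  have hab : a + 4 ≤ b := by
    obtain ⟨r, hr⟩ := e2
    omega
  have hL := sur_one hsub hN hp hu (by omega) ha hb hlt hgt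
  have hpa1 : W (p (a + 1)) u = 0 := by
    by_contra h
    have := hN.even hp h ha
    rw [show a + 1 - a = 1 by ring] at this
    exact absurd this (by decide)
  have hpb1 : W (p (b - 1)) u = 0 := by
    by_contra h
    have := hN.even hp hb h
    rw [show b - (b - 1) = 1 by ring] at this
    exact absurd this (by decide)
  have hoff1 : Off (sur p a b 1 (fun _ => u)) (p (a + 1)) := by
    intro k
    rcases sur_cases p a b 1 (fun _ => u) k with ⟨h, e⟩ | ⟨l, h1, h2, h, e⟩ | ⟨l, hl, h, e⟩
    · rw [e]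
      intro h'
      have := hp.inj h'
      omega
    · rw [e]
      exact fun h' => hu _ h'.symm
    · rw [e]
      intro h'
      have := hp.inj h'
      omega
  have hoff2 : Off (sur p a b 1 (fun _ => u)) (p (b - 1)) := by
    intro k
    rcases sur_cases p a b 1 (fun _ => u) k with ⟨h, e⟩ | ⟨l, h1, h2, h, e⟩ | ⟨l, hl, h, e⟩
    · rw [e]
      intro h'
      have := hp.inj h'
      omega
    · rw [e]
      exact fun h' => hu _ h'.symm
    · rw [e]
      intro h'
      have := hp.inj h'
      omega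
  refine hsa V W c hN _ hL a (a + 2) 1 (fun _ => p (a + 1)) (p (b - 1)) le_rfl (by omega) ?_ ?_ hoff2
    ?_ ?_
  · refine ⟨fun _ _ _ => hoff1, fun k l h1 h2 h3 h4 _ => by omega, fun k l h1 h2 h3 h4 => ?_⟩
    rw [hN.loop]
    simp only [ne_eq, not_true_eq_false, false_iff]
    omega
  · intro k r hk1 hk2
    have hk : k = 1 := by omega
    rcases sur_cases p a b 1 (fun _ => u) r with ⟨h, e⟩ | ⟨l, h1, h2, h, e⟩ | ⟨l, hl, h, e⟩
    · rw [e, hp.adj]
      omega
    · rw [e, hN.symm, hpa1]
      simp only [ne_eq, not_true_eq_false, false_iff]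
      omega
    · rw [e, hp.adj]
      omega
  · intro k
    rcases sur_cases p a b 1 (fun _ => u) k with ⟨h, e⟩ | ⟨l, h1, h2, h, e⟩ | ⟨l, hl, h, e⟩
    · rw [e, hp.adj]
      omega
    · rw [e, hN.symm, hpb1]
      simp only [ne_eq, not_true_eq_false, false_iff]
      omega
    · rw [e, hp.adj]
      omega
  · intro k hk1 hk2
    constructor
    · intro h
      have := hp.inj h
      omega
    · by_contra h
      have := (hp.adj _ _).1 h
      omega

end Pool.Agent.Q249.BD
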